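import Pool.Agent.H307R2.OP.RCH
import Pool.Agent.H413R3.OddT.Defs

set_option autoImplicit false

/-! The choice of the fixed primes, with given primes among them (adapted from
`Pool.Agent.H307R2.OP.RCH`) -/

namespace Pool.Agent.U448.OddQ

open Pool.Agent.H413R3.OddT

open Finset Pool.Agent.H307R2.OP

open Classical in
/-- choice of the killing primes, together with the primes of `L` -/
theorem rChoiceQ (h1 : StrongStmt) (h2 : KillPrime) (K0 : ℕ) :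
    ∀ M : ℕ, 1 ≤ M → ∃ y0 : ℕ, ∀ y : ℕ, y0 ≤ y → ∀ I : ℕ,
    y ^ (2 * M + 4) ≤ I → I ≤ 2 * y ^ (2 * M + 4) → ∀ L : Finset ℕ, L.card ≤ K0 →
    (∀ l ∈ L, l.Prime ∧ l % 8 = 5) → ∏ l ∈ L, l ≤ 2 ^ (I / 32) → ∃ (R : Finset ℕ) (c : ℕ),
      (c = 3 ∨ c = 5) ∧ L ⊆ R ∧ RCT M y I (K0 + 2) R ∧
      ((R.filter (fun q => q % 8 = 3)).card + (if c = 3 then 1 else 0) = 0 ∨
        (R.filter (fun q => q % 8 = 3)).card + (if c = 3 then 1 else 0) = 2) := by
  obtain ⟨C1, hC1⟩ := h1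
  obtain ⟨C2, hC2⟩ := h2
  intro M hM
  refine ⟨1 + C1 + 8 * C1 + 576 * C2, ?_⟩
  intro y hy I hI1 hI2 L hLc hL hI32
  set P0 : ℕ := ∏ q ∈ L, q with hP0
  have hy1 : 1 ≤ y := by omega
  set Δ : ℕ := 2 ^ (8 * y ^ (2 * M - 1)) with hΔ
  set i : ℕ := kap M y 0 with hi
  have hi' : i = y ^ (2 * M + 2) := by
    rw [hi]; unfold kap; simp
  have hCi : C1 ≤ i := by
    rw [hi']
    calc C1 ≤ y := by omega
      _ = y ^ 1 := (pow_one y).symm
      _ ≤ y ^ (2 * M + 2) := Nat.pow_le_pow_right hy1 (by omega)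
  have hΔC : Δ ^ C1 ≤ 2 ^ i := by
    rw [hΔ, ← pow_mul]
    apply Nat.pow_le_pow_right (by norm_num)
    rw [hi']
    have := rch_pow C1 8 (2 * M - 1) (2 * M + 2) y (by omega) hy1 (by omega)
    calc 8 * y ^ (2 * M - 1) * C1 = 8 * C1 * y ^ (2 * M - 1) := by ring
      _ ≤ _ := this
  -- the strong kernels
  set SB : Finset ℕ := (range (Δ + 1)).filter (fun δ => Adm δ ∧ StrongAt i δ) with hSB
  have hSBcard : SB.card ≤ 2 := by
    by_contra hcon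
    push Not at hcon
    obtain ⟨a, ha, b, hb, c, hc, hab, hac, hbc⟩ := Finset.two_lt_card.mp hcon
    rw [hSB, Finset.mem_filter, Finset.mem_range] at ha hb hc
    exact hC1 i Δ a b c hCi hΔC ha.2.1 hb.2.1 hc.2.1 (by omega) (by omega) (by omega) hab hac hbc
      ha.2.2 hb.2.2 hc.2.2
  have hch : ∀ δ : ℕ, ∃ q : ℕ, Adm δ → (q.Prime ∧ 5 ≤ q ∧ (q % 8 = 3 ∨ q % 8 = 5) ∧
      J q δ = -1 ∧ q ≤ C2 * δ ^ C2) := by
    intro δ
    by_cases h : Adm δ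
    · obtain ⟨q, hq⟩ := hC2 δ h
      exact ⟨q, fun _ => hq⟩
    · exact ⟨0, fun h' => absurd h' h⟩
  choose qf hqf using hch
  set R : Finset ℕ := SB.image qf with hR
  have hRcard : R.card ≤ 2 := Finset.card_image_le.trans hSBcard
  have hRmem : ∀ q ∈ R, ∃ δ : ℕ, Adm δ ∧ δ ≤ Δ ∧ qf δ = q := by
    intro q hq
    rw [hR, Finset.mem_image] at hq
    obtain ⟨δ, hδ, hq⟩ := hq
    rw [hSB, Finset.mem_filter, Finset.mem_range] at hδ
    exact ⟨δ, hδ.2.1, by omega, hq⟩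
  have hRpr : ∀ q ∈ R, q.Prime ∧ 5 ≤ q ∧ (q % 8 = 3 ∨ q % 8 = 5) := by
    intro q hq
    obtain ⟨δ, hδ, _, rfl⟩ := hRmem q hq
    obtain ⟨h3, h4, h5, _⟩ := hqf δ hδ
    exact ⟨h3, h4, h5⟩
  have hRle : ∀ q ∈ R, q ≤ 2 ^ (9 * C2 * y ^ (2 * M - 1)) := by
    intro q hq
    obtain ⟨δ, hδ, hδle, rfl⟩ := hRmem q hq
    obtain ⟨_, _, _, _, h5⟩ := hqf δ hδ
    have hyp : 1 ≤ y ^ (2 * M - 1) := Nat.one_le_pow _ _ hy1
    calc qf δ ≤ C2 * δ ^ C2 := h5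
      _ ≤ 2 ^ C2 * Δ ^ C2 :=
        Nat.mul_le_mul (Nat.lt_two_pow_self).le (Nat.pow_le_pow_left hδle C2)
      _ = 2 ^ (C2 + 8 * y ^ (2 * M - 1) * C2) := by rw [hΔ, ← pow_mul, ← pow_add]
      _ ≤ 2 ^ (9 * C2 * y ^ (2 * M - 1)) := by
        apply Nat.pow_le_pow_right (by norm_num)
        nlinarith [Nat.mul_le_mul_left C2 hyp]
  have hRprod : ∏ q ∈ R, q ≤ 2 ^ (I / 32) := by
    have h3 : ∏ q ∈ R, q ≤ (2 ^ (9 * C2 * y ^ (2 * M - 1))) ^ R.card :=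
      Finset.prod_le_pow_card R (fun q => q) _ hRle
    refine h3.trans ?_
    calc (2 ^ (9 * C2 * y ^ (2 * M - 1))) ^ R.card ≤ (2 ^ (9 * C2 * y ^ (2 * M - 1))) ^ 2 :=
          Nat.pow_le_pow_right (by positivity) hRcard
      _ = 2 ^ (9 * C2 * y ^ (2 * M - 1) * 2) := by rw [← pow_mul]
      _ ≤ 2 ^ (I / 32) := by
        apply Nat.pow_le_pow_right (by norm_num)
        rw [Nat.le_div_iff_mul_le (by norm_num)]
        have := rch_pow C2 576 (2 * M - 1) (2 * M + 4) y (by omega) hy1 (by omega)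
        calc 9 * C2 * y ^ (2 * M - 1) * 2 * 32 = 576 * C2 * y ^ (2 * M - 1) := by ring
          _ ≤ y ^ (2 * M + 4) := this
          _ ≤ I := hI1
  have hkills : ∀ δ : ℕ, Adm δ → δ ≤ 2 ^ (8 * y ^ (2 * M - 1)) → StrongAt (kap M y 0) δ →
      ∃ q ∈ R, J q δ = -1 := by
    intro δ hδ hle hst
    refine ⟨qf δ, ?_, ?_⟩
    · rw [hR, Finset.mem_image]
      refine ⟨δ, ?_, rfl⟩
      rw [hSB, Finset.mem_filter, Finset.mem_range]
      exact ⟨Nat.lt_succ_of_le hle, hδ, hst⟩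
    · exact (hqf δ hδ).2.2.2.1
  have hfc : (R.filter (fun q => q % 8 = 3)).card ≤ 2 :=
    (Finset.card_filter_le _ _).trans hRcard
  have hL5 : ∀ l ∈ L, l.Prime ∧ 5 ≤ l ∧ (l % 8 = 3 ∨ l % 8 = 5) := by
    intro l hl
    obtain ⟨h3, h4⟩ := hL l hl
    exact ⟨h3, by omega, Or.inr h4⟩
  have hRCT : RCT M y I (K0 + 2) (R ∪ L) := by
    refine ⟨?_, ?_, ?_, ?_⟩
    · have := Finset.card_union_le R L
      omega
    · intro q hq
      rcases Finset.mem_union.1 hq with h | h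
      · exact hRpr q h
      · exact hL5 q h
    · have hsplit : ∏ q ∈ R ∪ L, q = (∏ q ∈ R, q) * ∏ q ∈ L \ R, q := by
        rw [← Finset.union_sdiff_self_eq_union, Finset.prod_union Finset.disjoint_sdiff]
      have h3 : ∏ q ∈ L \ R, q ≤ P0 := by
        apply Nat.le_of_dvd
        · exact Finset.prod_pos fun q hq => (hL q hq).1.pos
        · exact Finset.prod_dvd_prod_of_subset _ _ _ Finset.sdiff_subset
      rw [hsplit]
      calc (∏ q ∈ R, q) * ∏ q ∈ L \ R, q ≤ 2 ^ (I / 32) * 2 ^ (I / 32) :=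
            Nat.mul_le_mul hRprod (h3.trans hI32)
        _ = 2 ^ (I / 32 + I / 32) := by rw [pow_add]
        _ ≤ 2 ^ (I / 16) := Nat.pow_le_pow_right (by norm_num) (by omega)
    · intro δ hδ hle hst
      obtain ⟨q, hq, hq2⟩ := hkills δ hδ hle hst
      exact ⟨q, Finset.mem_union_left _ hq, hq2⟩
  have hf : (R ∪ L).filter (fun q => q % 8 = 3) = R.filter (fun q => q % 8 = 3) := by
    ext q
    simp only [Finset.mem_filter, Finset.mem_union]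
    constructor
    · rintro ⟨h | h, h'⟩
      · exact ⟨h, h'⟩
      · have := (hL q h).2
        omega
    · rintro ⟨h, h'⟩
      exact ⟨Or.inl h, h'⟩
  by_cases hb1 : (R.filter (fun q => q % 8 = 3)).card = 1
  · refine ⟨R ∪ L, 3, Or.inl rfl, Finset.subset_union_right, hRCT, Or.inr ?_⟩
    rw [hf, hb1]
    norm_num
  · refine ⟨R ∪ L, 5, Or.inr rfl, Finset.subset_union_right, hRCT, ?_⟩
    rw [hf, if_neg (by norm_num : ¬ (5 : ℕ) = 3)]
    omega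

end Pool.Agent.U448.OddQ
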