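import Pool.Agent.U448.OddQ.Main
import Pool.Agent.U448.OddQ.Rch

set_option autoImplicit false

/-!
# Odd values of the partition function on the `n` with `1 - 24 n` a square modulo given primes
-/

namespace Pool.Agent.U448.OddQ

open Finset
open Pool.Agent.H413R3.OddT
open Pool.Agent.H307R2.OP
open Pool.Agent.H307R2.OP.OC (sp_pow sp_zero)
open Pool.Agent.H413R3.Part (mp)

theorem oddQ_mono (t : ℕ) (L : Finset ℕ) (b ρ x z : ℕ) (h : x ≤ z) :
    oddQ L t b ρ x ≤ oddQ L t b ρ z := by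
  classical
  unfold oddQ
  apply Finset.card_le_card
  apply Finset.filter_subset_filter
  exact Finset.range_subset_range.2 (by omega)

/-- from `y` to `x` -/
theorem from_yQ (AL : Finset ℕ → ℕ → Prop) (f : Finset ℕ → ℕ → ℕ → ℕ → ℕ)
    (hf : ∀ (L : Finset ℕ) (b ρ x z : ℕ), x ≤ z → f L b ρ x ≤ f L b ρ z)
    (hmain : ∀ M : ℕ, 2 ≤ M → ∃ y0 : ℕ, ∀ y : ℕ, y0 ≤ y → ∀ I : ℕ,
      y ^ (2 * M + 4) ≤ I → I ≤ 2 * y ^ (2 * M + 4) → ∀ L : Finset ℕ, AL L I →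
      ∀ b ρ : ℕ, 2 ^ b ≤ y ^ (4 * M - 3) →
      Real.sqrt (2 ^ I) * (y : ℝ) ^ (2 * M - 3 : ℤ) / 2 ^ b ≤ (f L b ρ (2 ^ I) : ℝ)) :
    ∀ ε : ℝ, 0 < ε → ∃ x0 : ℝ, ∀ x : ℕ, x0 ≤ x → ∀ L : Finset ℕ, AL L (Nat.log 2 x) →
    ∀ b ρ : ℕ, (2 : ℝ) ^ b ≤ Real.log x ^ (2 - ε) →
    Real.sqrt x * Real.log x ^ (1 - ε) / 2 ^ b ≤ (f L b ρ x : ℝ) := by
  intro ε hε
  -- choice of M
  obtain ⟨n0, hn0⟩ := exists_nat_gt (11 / ε)
  set M : ℕ := max 2 n0 with hM
  have hM2 : 2 ≤ M := le_max_left _ _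
  have hMn : (n0 : ℝ) ≤ M := by exact_mod_cast le_max_right 2 n0
  set D : ℕ := 2 * M + 4 with hD
  have hDr : (D : ℝ) = 2 * M + 4 := by rw [hD]; push_cast; ring
  have hD0 : (0 : ℝ) < D := by rw [hDr]; positivity
  have hD7 : (7 : ℝ) < D := by
    have : (2 : ℝ) ≤ M := by exact_mod_cast hM2
    rw [hDr]; linarith
  set δ : ℝ := 7 / D with hδ
  have hδpos : 0 < δ := by rw [hδ]; positivity
  have hδ1 : δ < 1 := by rw [hδ, div_lt_one hD0]; exact hD7
  set δ' : ℝ := 11 / D with hδ'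
  have hδδ' : δ ≤ δ' := by
    rw [hδ, hδ']
    exact div_le_div_of_nonneg_right (by norm_num) hD0.le
  have hδε' : δ' < ε := by
    rw [hδ', div_lt_iff₀ hD0]
    have h1 : 11 < M * ε := by
      rw [← div_lt_iff₀ hε]; linarith
    have hM0 : (0 : ℝ) ≤ M := Nat.cast_nonneg _
    rw [hDr]
    nlinarith
  have hδε : δ < ε := by linarith
  obtain ⟨y0, hy0⟩ := hmain M (by omega)
  set B : ℕ := max (max (y0 ^ D) ((2 * D) ^ D)) 2 with hB
  set X : ℝ := (16 : ℝ) ^ (1 / (ε - δ')) with hX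
  have hX0 : 0 < X := by rw [hX]; positivity
  have hX1 : 1 ≤ X := by
    rw [hX]
    apply Real.one_le_rpow (by norm_num)
    exact one_div_nonneg.2 (by linarith)
  refine ⟨max ((2 : ℝ) ^ B) (Real.exp X), fun x hx LL hAL b ρ hb => ?_⟩
  have hx1 : 2 ^ B ≤ x := by
    have := (le_max_left _ _).trans hx
    exact_mod_cast this
  have hx2 : Real.exp X ≤ x := (le_max_right _ _).trans hx
  have hxpos : 0 < x := lt_of_lt_of_le (by positivity) hx1
  have hxpos' : (0 : ℝ) < x := by exact_mod_cast hxpos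
  set I : ℕ := Nat.log 2 x with hI
  have hIB : B ≤ I := Nat.le_log_of_pow_le (by norm_num) hx1
  have hI2 : 2 ≤ I := (le_max_right _ _).trans hIB
  have hIy0 : y0 ^ D ≤ I := ((le_max_left _ _).trans (le_max_left _ _)).trans hIB
  have hID : (2 * D) ^ D ≤ I := ((le_max_right _ _).trans (le_max_left _ _)).trans hIB
  have hxI : 2 ^ I ≤ x := Nat.pow_log_le_self 2 (by omega)
  have hxI' : x < 2 ^ (I + 1) := Nat.lt_pow_succ_log_self (by norm_num) x
  -- choice of y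
  set y : ℕ := Nat.findGreatest (fun y => y ^ D ≤ I) I with hy
  have hD1 : D ≠ 0 := by omega
  have hyD : y ^ D ≤ I :=
    Nat.findGreatest_spec (P := fun y => y ^ D ≤ I) (m := 0) (Nat.zero_le _)
      (by simp [hD1])
  have hge : ∀ z : ℕ, z ^ D ≤ I → z ≤ y := by
    intro z hz
    refine Nat.le_findGreatest ?_ hz
    exact (Nat.le_self_pow hD1 z).trans hz
  have hyy0 : y0 ≤ y := hge _ hIy0
  have hy2D : 2 * D ≤ y := hge _ hID
  have hlt : I < (y + 1) ^ D := by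
    by_contra hcon
    push Not at hcon
    have := hge _ hcon
    omega
  have hI2y : I ≤ 2 * y ^ D := by
    have h1 : (I : ℝ) < ((y : ℝ) + 1) ^ D := by exact_mod_cast hlt
    have h2 := fin_two (D := D) (y := y) (by omega) hy2D
    have h3 : (I : ℝ) ≤ 2 * (y : ℝ) ^ D := by linarith
    exact_mod_cast h3
  -- real estimates
  set L : ℝ := Real.log x with hL
  have hLX : X ≤ L := by
    rw [hL]
    have := Real.log_le_log (Real.exp_pos X) hx2
    rwa [Real.log_exp] at this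
  have hL0 : 0 < L := by linarith
  have hLI : L ≤ 2 * I := by
    have h1 : L ≤ Real.log ((2 : ℝ) ^ (I + 1)) := by
      rw [hL]
      refine Real.log_le_log hxpos' ?_
      exact_mod_cast hxI'.le
    rw [Real.log_pow] at h1
    have h2 : Real.log 2 ≤ 1 := by linarith [Real.log_two_lt_d9]
    have h3 : ((I + 1 : ℕ) : ℝ) ≤ 2 * I := by
      have : (2 : ℝ) ≤ I := by exact_mod_cast hI2
      push_cast; linarith
    have h4 : (0 : ℝ) ≤ ((I + 1 : ℕ) : ℝ) := Nat.cast_nonneg _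
    nlinarith
  have hyL : L / 4 ≤ (y : ℝ) ^ D := by
    have h1 : (I : ℝ) ≤ 2 * (y : ℝ) ^ D := by exact_mod_cast hI2y
    linarith
  have hy0' : (0 : ℝ) < y := by exact_mod_cast (by omega : 0 < y)
  have hpow : (L / 4) ^ (1 - δ) ≤ (y : ℝ) ^ (2 * (M : ℤ) - 3) := by
    have h1 : (y : ℝ) ^ (2 * (M : ℤ) - 3) = ((y : ℝ) ^ D) ^ (1 - δ) := by
      rw [← Real.rpow_natCast (y : ℝ) D, ← Real.rpow_mul hy0'.le, ← Real.rpow_intCast]
      congr 1
      rw [hδ]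
      push_cast
      field_simp
      rw [hDr]
      ring
    rw [h1]
    exact Real.rpow_le_rpow (by positivity) hyL (by linarith)
  have hsqrt : Real.sqrt x / Real.sqrt 2 ≤ Real.sqrt (2 ^ I) := by
    rw [← Real.sqrt_div hxpos'.le]
    apply Real.sqrt_le_sqrt
    have : (x : ℝ) ≤ 2 ^ (I + 1) := by exact_mod_cast hxI'.le
    rw [pow_succ] at this
    linarith
  have hL1 : 1 ≤ L := hX1.trans hLX
  have hX16 : X ^ (ε - δ') = 16 := by
    rw [hX, ← Real.rpow_mul (by norm_num)]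
    have : 1 / (ε - δ') * (ε - δ') = 1 := by
      have : ε - δ' ≠ 0 := by linarith
      field_simp
    rw [this, Real.rpow_one]
  have hL16' : 16 ≤ L ^ (ε - δ') := by
    rw [← hX16]
    exact Real.rpow_le_rpow hX0.le hLX (by linarith)
  have hL16 : 16 ≤ L ^ (ε - δ) :=
    hL16'.trans (Real.rpow_le_rpow_of_exponent_le hL1 (by linarith))
  -- the modulus is small enough
  have hbnat : 2 ^ b ≤ y ^ (4 * M - 3) := by
    have h1 : (y : ℝ) ^ (4 * M - 3) = ((y : ℝ) ^ D) ^ (2 - δ') := by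
      rw [← Real.rpow_natCast (y : ℝ) D, ← Real.rpow_mul hy0'.le, ← Real.rpow_natCast]
      congr 1
      rw [hδ']
      have e : 3 ≤ 4 * M := by omega
      push_cast [e]
      field_simp
      rw [hDr]
      ring
    have hδ'2 : δ' < 2 := by
      rw [hδ', div_lt_iff₀ hD0]
      linarith
    have h2 : (L / 4) ^ (2 - δ') ≤ (y : ℝ) ^ (4 * M - 3) := by
      rw [h1]
      exact Real.rpow_le_rpow (by positivity) hyL (by linarith)
    have h3 : L ^ (2 - ε) ≤ (L / 4) ^ (2 - δ') := by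
      rw [Real.div_rpow hL0.le (by norm_num)]
      have h4 : (4 : ℝ) ^ (2 - δ') ≤ 16 := by
        calc (4 : ℝ) ^ (2 - δ') ≤ (4 : ℝ) ^ (2 : ℝ) :=
              Real.rpow_le_rpow_of_exponent_le (by norm_num) (by
                have : 0 < δ' := by rw [hδ']; positivity
                linarith)
          _ = 16 := by norm_num
      rw [le_div_iff₀ (by positivity)]
      have h5 : L ^ (2 - δ') = L ^ (ε - δ') * L ^ (2 - ε) := by
        rw [← Real.rpow_add hL0]; congr 1; ring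
      rw [h5, mul_comm]
      apply mul_le_mul_of_nonneg_right _ (by positivity)
      linarith
    have h6 : (2 : ℝ) ^ b ≤ (y : ℝ) ^ (4 * M - 3) := hb.trans (h3.trans h2)
    exact_mod_cast h6
  have h2b : (0 : ℝ) < 2 ^ b := by positivity
  have hmain := hy0 y hyy0 I hyD hI2y LL hAL b ρ hbnat
  have hmono : (f LL b ρ (2 ^ I) : ℝ) ≤ f LL b ρ x := by
    exact_mod_cast hf LL b ρ _ _ hxI
  refine le_trans ?_ (hmain.trans hmono)
  apply div_le_div_of_nonneg_right _ h2b.le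
  have hL8 : 8 * L ^ (1 - ε) ≤ L ^ (1 - δ) := by
    have h1 : L ^ (1 - δ) = L ^ (ε - δ) * L ^ (1 - ε) := by
      rw [← Real.rpow_add hL0]; congr 1; ring
    rw [h1]
    refine mul_le_mul_of_nonneg_right ?_ (by positivity)
    linarith
  have h4 : L ^ (1 - δ) ≤ 4 * (L / 4) ^ (1 - δ) := by
    rw [Real.div_rpow hL0.le (by norm_num)]
    have h5 : (4 : ℝ) ^ (1 - δ) ≤ 4 := by
      calc (4 : ℝ) ^ (1 - δ) ≤ (4 : ℝ) ^ (1 : ℝ) :=
            Real.rpow_le_rpow_of_exponent_le (by norm_num) (by linarith)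
        _ = 4 := Real.rpow_one 4
    have h6 : (0 : ℝ) < (4 : ℝ) ^ (1 - δ) := by positivity
    have h7 : (0 : ℝ) < L ^ (1 - δ) := by positivity
    rw [← mul_div_assoc, le_div_iff₀ h6]
    nlinarith
  have h8 : 2 * L ^ (1 - ε) ≤ (L / 4) ^ (1 - δ) := by linarith
  have hs2 : Real.sqrt 2 ≤ 2 := by
    rw [Real.sqrt_le_left (by norm_num)]; norm_num
  have hs0 : 0 < Real.sqrt 2 := Real.sqrt_pos.2 (by norm_num)
  calc Real.sqrt x * L ^ (1 - ε) = Real.sqrt x / Real.sqrt 2 * (Real.sqrt 2 * L ^ (1 - ε)) := by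
        field_simp
    _ ≤ Real.sqrt x / Real.sqrt 2 * (2 * L ^ (1 - ε)) := by gcongr
    _ ≤ Real.sqrt (2 ^ I) * (L / 4) ^ (1 - δ) := by gcongr
    _ ≤ Real.sqrt (2 ^ I) * (y : ℝ) ^ (2 * (M : ℤ) - 3) := by gcongr

/-- the admissible sets of primes -/
def AL (K : ℕ) (L : Finset ℕ) (I : ℕ) : Prop :=
  L.card ≤ K ∧ (∀ l ∈ L, l.Prime ∧ l % 8 = 5) ∧ ∏ l ∈ L, l ≤ 2 ^ (I / 32)

/-- **odd values of the partition function on square classes** -/
theorem finalQ (K : ℕ) :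
    ∀ ε : ℝ, 0 < ε → ∃ x0 : ℝ, ∀ x : ℕ, x0 ≤ x → ∀ L : Finset ℕ, AL K L (Nat.log 2 x) →
    ∀ b ρ : ℕ, (2 : ℝ) ^ b ≤ Real.log x ^ (2 - ε) →
    Real.sqrt x * Real.log x ^ (1 - ε) / 2 ^ b ≤ (oddQ L 1 b ρ x : ℝ) := by
  refine from_yQ (AL K) (fun L => oddQ L 1) (oddQ_mono 1) (mainYQ (AL K) 1 (by norm_num) 1 0 0
    (K + 2) rfl (fun w => w = 0 ∨ w = 2) (by rintro w (h | h) <;> omega) ?_ ?_ ?_)
  · intro M hM
    obtain ⟨y0, hy0⟩ := rChoiceQ strong_main killPrime K M hM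
    exact ⟨y0, fun y hy I hI1 hI2 L hAL => hy0 y hy I hI1 hI2 L hAL.1 hAL.2.1 hAL.2.2⟩
  · intro r hr
    have h := sp_pow (r - 1)
    have h4 : 4 ^ r = 4 * 4 ^ (r - 1) := by
      rw [← pow_succ']
      congr 1
      omega
    rw [sp_zero, h4, ← h]
    have e : 2 ^ (r - 1) - 2 ^ (1 - 1) + 0 = 2 ^ (r - 1) - 1 := by norm_num
    rw [e]
    ring
  · intro m' hodd hm3 s hs hcard h
    rcases h with h | h
    · exact ocT 0 m' s hs hcard h
    · have h1 := ocT2 m' hodd hm3 s hs (by rw [hcard, zero_add]) h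
      have e : 2 * sp 0 + 4 * sp m' + 1 = 4 * sp m' + 1 := by
        rw [sp_zero]; ring
      rw [e]
      exact h1

theorem oddQ_le (L : Finset ℕ) (b ρ x : ℕ) : oddQ L 1 b ρ x ≤
    {n : ℕ | n ≤ x ∧ n % 2 ^ b = ρ % 2 ^ b ∧ (∀ l ∈ L, IsSquare (1 - 24 * (n : ZMod l))) ∧
      Odd (Fintype.card (Nat.Partition n))}.ncard := by
  classical
  unfold oddQ
  rw [← Set.ncard_coe_finset]
  apply Set.ncard_le_ncard
  · intro n hn
    simp only [Finset.coe_filter, Set.mem_ofPred_eq, Finset.mem_range] at hn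
    obtain ⟨h1, h2, h3, h4⟩ := hn
    refine ⟨by omega, h2, fun l hl => ?_, ?_⟩
    · obtain ⟨v, hv⟩ := h3 l hl
      have h5 := (ZMod.natCast_eq_natCast_iff _ _ _).2 hv
      push_cast at h5
      exact ⟨v, by rw [← h5]; ring⟩
    · rwa [Pool.Agent.H413R3.Part.mp_one] at h4
  · exact (Set.finite_Iic x).subset fun n hn => hn.1

/-- the size condition -/
theorem size (P x : ℕ) (hx : 2 ^ 1024 ≤ x) (h : P ^ 33 ≤ x) : P ≤ 2 ^ (Nat.log 2 x / 32) := by
  set I := Nat.log 2 x with hI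
  have hI1 : 1024 ≤ I := Nat.le_log_of_pow_le (by norm_num) hx
  have hI2 : x < 2 ^ (I + 1) := Nat.lt_pow_succ_log_self (by norm_num) x
  by_contra hcon
  push Not at hcon
  have h1 : (2 ^ (I / 32)) ^ 33 ≤ P ^ 33 := Nat.pow_le_pow_left hcon.le 33
  rw [← pow_mul] at h1
  have h2 : 2 ^ (I / 32 * 33) < 2 ^ (I + 1) := h1.trans_lt (h.trans_lt hI2)
  have h3 := (Nat.pow_lt_pow_iff_right (by norm_num)).1 h2
  omega

theorem main (K : ℕ) (ε : ℝ) (hε : 0 < ε) : ∃ x0 : ℝ, ∀ x : ℕ, x0 ≤ x → ∀ L : Finset ℕ,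
    L.card ≤ K → (∀ l ∈ L, l.Prime ∧ l % 8 = 5) → (∏ l ∈ L, l) ^ 33 ≤ x → ∀ b ρ : ℕ,
    (2 : ℝ) ^ b ≤ Real.log x ^ (2 - ε) →
    Real.sqrt x * Real.log x ^ (1 - ε) / 2 ^ b ≤
      ({n : ℕ | n ≤ x ∧ n % 2 ^ b = ρ % 2 ^ b ∧ (∀ l ∈ L, IsSquare (1 - 24 * (n : ZMod l))) ∧
        Odd (Fintype.card (Nat.Partition n))}.ncard : ℝ) := by
  obtain ⟨x0, h⟩ := finalQ K ε hε
  refine ⟨max x0 (2 ^ 1024), fun x hx L h1 h2 h3 b ρ hb => ?_⟩
  have hx1 : x0 ≤ x := (le_max_left _ _).trans hx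
  have hx2 : 2 ^ 1024 ≤ x := by
    have := (le_max_right x0 ((2 : ℝ) ^ 1024)).trans hx
    exact_mod_cast this
  refine (h x hx1 L ⟨h1, h2, size _ _ hx2 h3⟩ b ρ hb).trans ?_
  exact_mod_cast oddQ_le L b ρ x

end Pool.Agent.U448.OddQ
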