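import Pool.Agent.U448.OddQ.Fin
import Pool.Agent.H413R3.OddL.Fin

set_option autoImplicit false

/-!
# Odd values of `p_t` on the `n` with `t - 24 n` a square modulo given primes
(the argument of `Pool.Agent.H413R3.OddL.Main`, the given primes among the fixed primes)
-/

namespace Pool.Agent.H413R3.OddL

open PowerSeries Pool.Agent.H397R2.PP Finset
open Pool.Agent.H307R2.OP
open Pool.Agent.H307R2.OP.MAINaux
open Pool.Agent.H413R3.Part (mp)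
open Pool.Agent.H413R3.Odd (tupLowAP cast5 cast3)
open Pool.Agent.H413R3.OddT
open Pool.Agent.U448.OddQ (oddQ)

open Classical in
/-- the counting step -/
theorem stepQ (L : Finset ℕ) (tt : ℕ) (htt : tt % 12 = 1)
    (h1 : TupStmt) {M : ℕ} (g : Cfg M) (hLR : L ⊆ g.R) (hok : g.Ok) (y : ℕ) (httI : tt ≤ 2 ^ g.I)
    (b ρ m : ℕ) (hm : 3 * m + tt = 4 ^ g.r) (hb : 8 * 2 ^ b ∣ 4 ^ g.r)
    (hco : ∀ s : Finset ℕ, (∀ q ∈ s, q.Prime ∧ (q % 8 = 3 ∨ q % 8 = 5)) →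
      s.card = ∑ j, g.k j + g.R.card + 1 →
      (s.filter (fun q => q % 8 = 3)).card =
        (g.R.filter (fun q => q % 8 = 3)).card + (if g.c = 3 then 1 else 0) →
      coeff (∏ q ∈ s, q) (Db ^ m) = 1)
    (Bd : ℝ) (hBd : 0 ≤ Bd)
    (hB : ∀ δ s : ℕ, AdmL δ → ¬ Bad g.I y δ → 1 ≤ s → δ * s ^ 2 ≤ 3 * 2 ^ g.I →
      (((g.Tup ×ˢ range (2 ^ g.I + 1)).filter
        (fun x => 3 * g.N x.1 = δ * s ^ 2 + 4 ^ g.r * x.2 ^ 2)).card : ℝ) ≤ Bd)
    (hlost : ((g.Tup.filter (fun t => (∃ δ : ℕ, AdmL δ ∧ Bad g.I y δ ∧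
      Rep g.r δ (g.N t)) ∨ ∃ e : ℕ, e ≤ tt ∧ ∃ u : ℕ, 3 * g.N t + e = 4 ^ g.r * u ^ 2)).card : ℝ) ≤
        ((g.Tup.filter (fun t => g.N t % (8 * 2 ^ b) = (8 * ρ + m) % (8 * 2 ^ b))).card : ℝ) / 2) :
    ((g.Tup.filter (fun t => g.N t % (8 * 2 ^ b) = (8 * ρ + m) % (8 * 2 ^ b))).card : ℝ) / 2 ≤
      (oddQ L tt b ρ (2 ^ g.I) : ℝ) * Bd := by
  have h42 : (2 : ℕ) ^ (2 * g.r) = 4 ^ g.r := by rw [pow_mul]; norm_num
  have key : ∀ t ∈ g.Tup, ∃ n u : ℕ, Odd (mp tt n) ∧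
      24 * n + 4 ^ g.r * u ^ 2 = 3 * g.N t + tt ∧ g.N t ≤ 2 ^ g.I := by
    intro t ht
    obtain ⟨s, hs1, hs2, hs3, hs4, -, -, -, hs8⟩ := h1 M g hok t ht
    have hco' := hco s (fun q hq => ⟨(hs1 q hq).1, (hs1 q hq).2.2⟩) hs3 hs4
    rw [hs2] at hco'
    obtain ⟨n, u, hn, hu⟩ := existsOddT tt (2 * g.r) m (g.N t) (by rw [h42]; exact hm) hco'
    rw [h42] at hu
    exact ⟨n, u, hn, hu, hs8⟩
  choose! n u hodd heq hN using key
  have h4r : 64 ≤ 4 ^ g.r := by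
    calc 64 = 4 ^ 3 := by norm_num
      _ ≤ 4 ^ g.r := Nat.pow_le_pow_right (by norm_num) hok.hr
  have hu : ∀ t ∈ g.Tup, u t ≤ 2 ^ g.I := by
    intro t ht
    have e1 := heq t ht
    have e2 := hN t ht
    have e3 : 64 * (u t) ^ 2 ≤ 4 ^ g.r * (u t) ^ 2 := Nat.mul_le_mul_right _ h4r
    have e4 : u t ≤ (u t) ^ 2 := Nat.le_self_pow (by norm_num) _
    omega
  have hn : ∀ t ∈ g.Tup, n t ≤ 2 ^ g.I := by
    intro t ht
    have e1 := heq t ht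
    have e2 := hN t ht
    have e6 : 0 ≤ 4 ^ g.r * (u t) ^ 2 := Nat.zero_le _
    omega
  -- the class of `n`
  have hclass : ∀ t ∈ g.Tup, g.N t % (8 * 2 ^ b) = (8 * ρ + m) % (8 * 2 ^ b) →
      n t % 2 ^ b = ρ % 2 ^ b := by
    intro t ht hNt
    have e1 := heq t ht
    have h1 : g.N t ≡ 8 * ρ + m [MOD 8 * 2 ^ b] := hNt
    have h2 : 4 ^ g.r * (u t) ^ 2 ≡ 0 [MOD 8 * 2 ^ b] := by
      rw [Nat.modEq_zero_iff_dvd]
      exact Dvd.dvd.mul_right hb _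
    have h2' : 4 ^ g.r ≡ 0 [MOD 8 * 2 ^ b] := by
      rw [Nat.modEq_zero_iff_dvd]
      exact hb
    have h3 : 24 * n t ≡ 24 * ρ [MOD 8 * 2 ^ b] := by
      calc 24 * n t ≡ 24 * n t + 4 ^ g.r * (u t) ^ 2 [MOD 8 * 2 ^ b] := by
            simpa using (h2.symm.add_left (24 * n t))
        _ = 3 * g.N t + tt := e1
        _ ≡ 3 * (8 * ρ + m) + tt [MOD 8 * 2 ^ b] := (h1.mul_left 3).add_right tt
        _ = 24 * ρ + 4 ^ g.r := by rw [← hm]; ring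
        _ ≡ 24 * ρ + 0 [MOD 8 * 2 ^ b] := h2'.add_left _
        _ = 24 * ρ := by ring
    have h4 : 8 * (3 * n t) ≡ 8 * (3 * ρ) [MOD 8 * 2 ^ b] := by
      have e3 : 8 * (3 * n t) = 24 * n t := by ring
      have e4 : 8 * (3 * ρ) = 24 * ρ := by ring
      rw [e3, e4]
      exact h3
    have h5 : 3 * n t ≡ 3 * ρ [MOD 2 ^ b] := Nat.ModEq.mul_left_cancel' (by norm_num) h4
    exact Nat.ModEq.cancel_left_of_coprime (by
      show Nat.gcd (2 ^ b) 3 = 1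
      exact Nat.Coprime.pow_left _ (by norm_num)) h5
  set T' := g.Tup.filter (fun t => g.N t % (8 * 2 ^ b) = (8 * ρ + m) % (8 * 2 ^ b)) with hT'
  set P : (Σ _ : Fin M → Finset ℕ, ℕ) → Prop := fun t => (∃ δ : ℕ, AdmL δ ∧ Bad g.I y δ ∧
      Rep g.r δ (g.N t)) ∨ ∃ e : ℕ, e ≤ tt ∧ ∃ u : ℕ, 3 * g.N t + e = 4 ^ g.r * u ^ 2 with hP
  have hsum : (T'.filter P).card + (T'.filter (fun t => ¬ P t)).card = T'.card :=
    Finset.card_filter_add_card_filter_not P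
  have hTle : ((T'.filter P).card : ℝ) ≤ ((g.Tup.filter P).card : ℝ) := by
    exact_mod_cast Finset.card_le_card (Finset.filter_subset_filter _ (Finset.filter_subset _ _))
  set Good := T'.filter (fun t => ¬ P t) with hGood
  have hgood : (T'.card : ℝ) / 2 ≤ (Good.card : ℝ) := by
    have : ((T'.filter P).card : ℝ) + (Good.card : ℝ) = (T'.card : ℝ) := by
      exact_mod_cast hsum
    linarith
  refine hgood.trans ?_
  rw [Finset.card_eq_sum_card_image n Good]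
  push_cast
  have himg : Good.image n ⊆
      (range (2 ^ g.I + 1)).filter (fun n => n % 2 ^ b = ρ % 2 ^ b ∧
        (∀ l ∈ L, ∃ v : ℕ, v ^ 2 + 24 * n ≡ tt [MOD l]) ∧ Odd (mp tt n)) := by
    intro b' hb'
    obtain ⟨t, ht, rfl⟩ := Finset.mem_image.1 hb'
    have ht0 := (Finset.mem_filter.1 ht).1
    obtain ⟨ht', hcl⟩ := Finset.mem_filter.1 ht0
    rw [Finset.mem_filter, Finset.mem_range]
    refine ⟨Nat.lt_succ_of_le (hn t ht'), hclass t ht' hcl, fun l hl => ⟨2 ^ g.r * u t, ?_⟩,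
      hodd t ht'⟩
    have hlN : l ∣ g.N t := by
      unfold Cfg.N Cfg.Rp
      exact Dvd.dvd.mul_right (Dvd.dvd.mul_right
        (Finset.dvd_prod_of_mem (fun q => q) (hLR hl)) _) _
    have e9 := heq t ht'
    have e10 : (2 ^ g.r * u t) ^ 2 + 24 * n t = 3 * g.N t + tt := by
      rw [← e9, mul_pow, ← pow_mul, mul_comm g.r 2, pow_mul]
      norm_num
      ring
    rw [e10]
    have e11 : 3 * g.N t ≡ 0 [MOD l] := (Nat.modEq_zero_iff_dvd).2 (Dvd.dvd.mul_left hlN _)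
    simpa using e11.add_right tt
  have hcardimg : ((Good.image n).card : ℝ) ≤ (oddQ L tt b ρ (2 ^ g.I) : ℝ) := by
    have := Finset.card_le_card himg
    unfold oddQ
    exact_mod_cast this
  have hfib : ∀ b ∈ Good.image n, ((Good.filter (fun t => n t = b)).card : ℝ) ≤ Bd := by
    intro b hb
    obtain ⟨t, ht, htb⟩ := Finset.mem_image.1 hb
    obtain ⟨ht0, hnp⟩ := Finset.mem_filter.1 ht
    have ht' := (Finset.mem_filter.1 ht0).1
    simp only [hP, not_or, not_exists, not_and] at hnp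
    obtain ⟨hnp1, hnp2⟩ := hnp
    have hb1 : tt < 24 * b := by
      by_contra hcon
      have e1 := heq t ht'
      rw [htb] at e1
      exact hnp2 (tt - 24 * b) (by omega) (u t) (by omega)
    obtain ⟨δ, s, hδs, hadm, hs⟩ := kernelT tt b htt hb1
    have e1 := heq t ht'
    have e2 := hN t ht'
    rw [htb] at e1
    have hrep : 3 * g.N t = δ * s ^ 2 + 4 ^ g.r * (u t) ^ 2 := by
      rw [hδs]; omega
    have hnb : ¬ Bad g.I y δ := fun hbad => hnp1 δ hadm hbad ⟨s, u t, hrep⟩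
    have hle : δ * s ^ 2 ≤ 3 * 2 ^ g.I := by
      have e6 : 0 ≤ 4 ^ g.r * (u t) ^ 2 := Nat.zero_le _
      omega
    refine le_trans ?_ (hB δ s hadm hnb hs hle)
    have : (Good.filter (fun t => n t = b)).card ≤
        ((g.Tup ×ˢ range (2 ^ g.I + 1)).filter
          (fun x => 3 * g.N x.1 = δ * s ^ 2 + 4 ^ g.r * x.2 ^ 2)).card := by
      refine Finset.card_le_card_of_injOn (fun t => (t, u t)) ?_ ?_
      · intro t' ht2
        simp only [Finset.coe_filter, Set.mem_ofPred_eq] at ht2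
        obtain ⟨ht3, ht4⟩ := ht2
        have ht5 := (Finset.mem_filter.1 (Finset.mem_filter.1 ht3).1).1
        have e7 := heq t' ht5
        rw [ht4] at e7
        simp only [Finset.coe_filter, Set.mem_ofPred_eq, Finset.mem_product, Finset.mem_range]
        refine ⟨⟨ht5, Nat.lt_succ_of_le (hu t' ht5)⟩, ?_⟩
        rw [hδs]; omega
      · intro a _ b _ hab
        exact (Prod.mk.inj hab).1
    exact_mod_cast this
  calc ∑ b ∈ Good.image n, ((Good.filter (fun t => n t = b)).card : ℝ)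
      ≤ ∑ b ∈ Good.image n, Bd := Finset.sum_le_sum hfib
    _ = ((Good.image n).card : ℝ) * Bd := by rw [Finset.sum_const, nsmul_eq_mul]
    _ ≤ (oddQ L tt b ρ (2 ^ g.I) : ℝ) * Bd := mul_le_mul_of_nonneg_right hcardimg hBd


/-- the main theorem in terms of the parameter `y` -/
theorem mainYQ (AL : Finset ℕ → ℕ → Prop) (tt : ℕ) (htt : tt % 12 = 1) (k0 a m0 K : ℕ) (ha0 : a % 2 = 0) (P3 : ℕ → Prop)
    (hP3 : ∀ w, P3 w → w % 2 = 0)
    (hch : ∀ M : ℕ, 1 ≤ M → ∃ y0 : ℕ, ∀ y : ℕ, y0 ≤ y → ∀ I : ℕ,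
      y ^ (2 * M + 4) ≤ I → I ≤ 2 * y ^ (2 * M + 4) → ∀ L : Finset ℕ, AL L I →
      ∃ (R : Finset ℕ) (c : ℕ), (c = 3 ∨ c = 5) ∧ L ⊆ R ∧ RCT M y I K R ∧
      P3 ((R.filter (fun q => q % 8 = 3)).card + (if c = 3 then 1 else 0)))
    (hexp : ∀ r, k0 ≤ r →
      3 * (2 * sp a + 4 * sp (2 ^ (r - 1) - 2 ^ (k0 - 1) + m0) + 1) + tt = 4 ^ r)
    (hcf : ∀ m' : ℕ, (m' % 2 = 1 ↔ tt % 8 = 1) → 3 ≤ m' → ∀ s : Finset ℕ,
      (∀ q ∈ s, q.Prime ∧ (q % 8 = 3 ∨ q % 8 = 5)) → s.card = a + m' →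
      P3 ((s.filter (fun q => q % 8 = 3)).card) →
      coeff (∏ q ∈ s, q) (Db ^ (2 * sp a + 4 * sp m' + 1)) = 1) :
    ∀ M : ℕ, 2 ≤ M → ∃ y0 : ℕ, ∀ y : ℕ, y0 ≤ y → ∀ I : ℕ,
    y ^ (2 * M + 4) ≤ I → I ≤ 2 * y ^ (2 * M + 4) → ∀ L : Finset ℕ, AL L I →
    ∀ b ρ : ℕ, 2 ^ b ≤ y ^ (4 * M - 3) →
    Real.sqrt (2 ^ I) * (y : ℝ) ^ (2 * M - 3 : ℤ) / 2 ^ b ≤ (oddQ L tt b ρ (2 ^ I) : ℝ) := by
  intro M hM2
  have hM : 1 ≤ M := by omega
  obtain ⟨c0, hc0, I1, h2'⟩ := tupLowAP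
  obtain ⟨C, hC, I2, h3'⟩ := good_main
  obtain ⟨y4, h4'⟩ := parT pc M (m0 + a) (2 ^ (k0 - 1)) K hM2
  obtain ⟨y5, h5'⟩ := hch M hM
  obtain ⟨y6, h6'⟩ := badTotalT qr tup tupLarge_main tupSmall_main badSum_main
    badNum_main strongBad_main pc tt (m0 + a) (2 ^ (k0 - 1)) K M hM2 c0 hc0
  obtain ⟨y7, h7'⟩ := poly_exp M
  have hs3 : (0:ℝ) < Real.sqrt 3 := Real.sqrt_pos.2 (by norm_num)
  obtain ⟨y8, h8'⟩ := log_small M (c0 / (8 * 2 ^ M * (C * 2 ^ K) * Real.exp M * Real.sqrt 3))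
    (by positivity)
  refine ⟨y4 + y5 + y6 + y7 + y8 + I1 + I2 + 20 + tt + m0 + a + 4 * 2 ^ k0,
    fun y hy I hI1 hI2 L hAL b ρ hb => ?_⟩
  have hpk : 1 ≤ 2 ^ k0 := Nat.one_le_two_pow
  have hpk1 : 1 ≤ 2 ^ (k0 - 1) := Nat.one_le_two_pow
  have hy20 : 20 ≤ y := by omega
  have hyI : y ≤ y ^ (2 * M + 4) := Nat.le_self_pow (by omega) _
  obtain ⟨R, c, hc35, hLR, hRC, hpar⟩ := h5' y (by omega) I hI1 hI2 L hAL
  obtain ⟨hok, hcard, hr1, hr2, hk, hS, hκ, h2k, hprod, hW⟩ :=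
    h4' y (by omega) I hI1 hI2 R c hRC.card hRC.pr hRC.le hc35
  have hWpos : 0 < (cfgT M y (m0 + a) (2 ^ (k0 - 1)) I R c).W := lt_of_lt_of_le (by positivity) hW
  have hIpow : I ≤ 2 ^ y := hI2.trans (h7' y (by omega))
  have hL : Nat.log 2 I ≤ y := by
    have := Nat.log_mono_right (b := 2) hIpow
    rwa [Nat.log_pow (by norm_num)] at this
  have hIbig : 4000 * y * (Nat.log 2 I + 1) ≤ I := by
    have e1 : 4000 * y * (Nat.log 2 I + 1) ≤ 4000 * y * (2 * y) :=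
      Nat.mul_le_mul_left _ (by omega)
    have e2 : y ^ 6 ≤ y ^ (2 * M + 4) := Nat.pow_le_pow_right (by omega) (by omega)
    have e3 : 20 ^ 4 ≤ y ^ 4 := Nat.pow_le_pow_left hy20 4
    have e4 : 8000 * y ^ 2 ≤ y ^ 6 := by
      calc 8000 * y ^ 2 ≤ y ^ 4 * y ^ 2 := Nat.mul_le_mul_right _ (by omega)
        _ = y ^ 6 := by ring
    calc 4000 * y * (Nat.log 2 I + 1) ≤ 4000 * y * (2 * y) := e1
      _ = 8000 * y ^ 2 := by ring
      _ ≤ I := by omega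
  have hksum : ∑ j, (cfgT M y (m0 + a) (2 ^ (k0 - 1)) I R c).k j + (cfgT M y (m0 + a) (2 ^ (k0 - 1)) I R c).R.card ≤ I := by
    have e1 : 2 * y ^ (2 * M - 1) ≤ y ^ (2 * M + 4) := by
      calc 2 * y ^ (2 * M - 1) ≤ y * y ^ (2 * M - 1) := Nat.mul_le_mul_right _ (by omega)
        _ = y ^ (2 * M) := by rw [← pow_succ']; congr 1; omega
        _ ≤ y ^ (2 * M + 4) := Nat.pow_le_pow_right (by omega) (by omega)
    have e3 : y ≤ y ^ (2 * M - 1) := Nat.le_self_pow (by omega) _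
    have e2 : (cfgT M y (m0 + a) (2 ^ (k0 - 1)) I R c).R.card = R.card := rfl
    rw [e2]
    omega
  -- the modulus
  have hmod : 8 * 2 ^ b ∣ 4 ^ (rr M y) := by
    have e1 : 8 * 2 ^ b = 2 ^ (b + 3) := by rw [pow_add]; ring
    have e2 : (4 : ℕ) ^ (rr M y) = 2 ^ (2 * rr M y) := by
      rw [pow_mul]; norm_num
    rw [e1, e2]
    apply pow_dvd_pow
    have e3 : 2 ^ (b + 3) < 2 ^ (2 * rr M y) := by
      calc 2 ^ (b + 3) = 8 * 2 ^ b := e1.symm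
        _ ≤ y * y ^ (4 * M - 3) := Nat.mul_le_mul (by omega) hb
        _ = y ^ (2 * M - 1) * y ^ (2 * M - 1) := by
            rw [← pow_add, ← pow_succ']
            congr 1
            omega
        _ < 2 ^ (rr M y) * 2 ^ (rr M y) := Nat.mul_lt_mul'' hr2 hr2
        _ = 2 ^ (2 * rr M y) := by rw [two_mul, pow_add]
    exact ((Nat.pow_lt_pow_iff_right (by norm_num)).1 e3).le
  have hk0r : k0 ≤ rr M y := by
    have e1 : 2 ^ k0 < 2 ^ (rr M y) := by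
      calc 2 ^ k0 ≤ y := by omega
        _ ≤ y ^ (2 * M - 1) := Nat.le_self_pow (by omega) _
        _ < _ := hr2
    exact ((Nat.pow_lt_pow_iff_right (by norm_num)).1 e1).le
  obtain ⟨m', hm'⟩ : ∃ m', m' = 2 ^ (rr M y - 1) - 2 ^ (k0 - 1) + m0 := ⟨_, rfl⟩
  obtain ⟨m, hmdef⟩ : ∃ m, m = 2 * sp a + 4 * sp m' + 1 := ⟨_, rfl⟩
  have hm : 3 * m + tt = 4 ^ (rr M y) := by
    rw [hmdef, hm']
    exact hexp (rr M y) hk0r
  have hr3 : 3 ≤ rr M y := hok.hr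
  have h4r8 : 4 ^ (rr M y) % 8 = 0 := by
    obtain ⟨k, hk⟩ := Nat.exists_eq_add_of_le hr3
    rw [hk, pow_add]
    have : (4 : ℕ) ^ 3 = 64 := by norm_num
    rw [this]
    omega
  have hle2 : 2 ^ (k0 - 1) ≤ 2 ^ (rr M y - 1) := Nat.pow_le_pow_right (by norm_num) (by omega)
  have e1a : sp a = 4 * sp (a / 2) + a % 2 := by
    conv_lhs => rw [← Nat.div_add_mod a 2]
    exact sp_two_mul_add _ _ (Nat.mod_lt _ (by norm_num))
  have e2m : sp m' = 4 * sp (m' / 2) + m' % 2 := by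
    conv_lhs => rw [← Nat.div_add_mod m' 2]
    exact sp_two_mul_add _ _ (Nat.mod_lt _ (by norm_num))
  have hm8 : m % 8 = if m' % 2 = 1 then 5 else 1 := by
    split_ifs with h
    · omega
    · omega
  have hm'odd : m' % 2 = 1 ↔ tt % 8 = 1 := by
    omega
  have hm'3 : 3 ≤ m' := by
    have e1 : 2 ^ (rr M y) = 2 * 2 ^ (rr M y - 1) := by
      rw [← pow_succ']
      congr 1
    have e2 : 4 * 2 ^ k0 ≤ y := by omega
    have e3 : y ≤ y ^ (2 * M - 1) := Nat.le_self_pow (by omega) _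
    have e4 : 2 ^ (k0 - 1) ≤ 2 ^ k0 := Nat.pow_le_pow_right (by norm_num) (by omega)
    omega
  have hb32 : 32 * 2 ^ b ≤ I ^ 2 := by
    calc 32 * 2 ^ b ≤ y ^ 2 * y ^ (4 * M - 3) := by
          apply Nat.mul_le_mul _ hb
          nlinarith
      _ = y ^ (4 * M - 1) := by rw [← pow_add]; congr 1; omega
      _ ≤ y ^ ((2 * M + 4) * 2) := Nat.pow_le_pow_right (by omega) (by omega)
      _ = (y ^ (2 * M + 4)) ^ 2 := by rw [pow_mul]
      _ ≤ I ^ 2 := Nat.pow_le_pow_left hI1 2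
  have hTlow := h2' M (cfgT M y (m0 + a) (2 ^ (k0 - 1)) I R c) hok (show I1 ≤ I by omega) h2k b (8 * ρ + m) hb32
    (by
      have : m % 2 = 1 := by omega
      omega) (fun A hA => by
      obtain ⟨w, hwdef⟩ : ∃ w, (R.filter (fun q => q % 8 = 3)).card +
          (if c = 3 then 1 else 0) = w := ⟨_, rfl⟩
      have hpar' := hpar
      rw [hwdef] at hpar'
      have hw := hP3 _ hpar'
      rw [compatT (cfgT M y (m0 + a) (2 ^ (k0 - 1)) I R c) hok w hw hwdef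
        (if m' % 2 = 1 then 5 else 1) (by
        have e1 : (cfgT M y (m0 + a) (2 ^ (k0 - 1)) I R c).R.card = R.card := rfl
        rw [e1]
        have htot : ∑ j, (cfgT M y (m0 + a) (2 ^ (k0 - 1)) I R c).k j + R.card + 1 = a + m' := by
          omega
        rw [htot]
        split_ifs with h
        · exact Pool.Agent.H413R3.Odd.pow5 _ (by omega)
        · have h52 : (5 : ZMod 8) ^ 2 = 1 := by decide
          obtain ⟨d, hd⟩ : ∃ d, a + m' + w = 2 * d := ⟨(a + m' + w) / 2, by omega⟩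
          rw [hd, pow_mul, h52, one_pow]
          rfl) (by split_ifs <;> norm_num) A hA, ← hm8]
      omega)
  have hbR : (2 : ℝ) ^ b ≤ (y : ℝ) ^ (4 * M - 3) := by exact_mod_cast hb
  have hyR : (0:ℝ) < y := by exact_mod_cast (by omega : 0 < y)
  have hIR : (0:ℝ) < I := by
    have : 0 < I := by
      have : 0 < y ^ (2 * M + 4) := by positivity
      omega
    exact_mod_cast this
  have hRp : (0:ℝ) < ((cfgT M y (m0 + a) (2 ^ (k0 - 1)) I R c).Rp : ℝ) := by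
    have : 0 < (cfgT M y (m0 + a) (2 ^ (k0 - 1)) I R c).Rp := Finset.prod_pos (fun q hq => (hRC.pr q hq).1.pos)
    exact_mod_cast this
  have hlost := h6' y (by omega) I hI1 hI2 R c hc35 hRC
  classical
  have hlost' : (((cfgT M y (m0 + a) (2 ^ (k0 - 1)) I R c).Tup.filter (fun t => (∃ δ : ℕ, AdmL δ ∧
      Bad (cfgT M y (m0 + a) (2 ^ (k0 - 1)) I R c).I y δ ∧ Rep (cfgT M y (m0 + a) (2 ^ (k0 - 1)) I R c).r δ ((cfgT M y (m0 + a) (2 ^ (k0 - 1)) I R c).N t)) ∨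
      ∃ e : ℕ, e ≤ tt ∧ ∃ u : ℕ, 3 * (cfgT M y (m0 + a) (2 ^ (k0 - 1)) I R c).N t + e = 4 ^ (cfgT M y (m0 + a) (2 ^ (k0 - 1)) I R c).r * u ^ 2)).card : ℝ) ≤
      (((cfgT M y (m0 + a) (2 ^ (k0 - 1)) I R c).Tup.filter (fun t => (cfgT M y (m0 + a) (2 ^ (k0 - 1)) I R c).N t % (8 * 2 ^ b) =
        (8 * ρ + m) % (8 * 2 ^ b))).card : ℝ) / 2 := by
    have e1 : c0 / (y : ℝ) ^ (4 * M - 3) * (2 ^ I / ((cfgT M y (m0 + a) (2 ^ (k0 - 1)) I R c).Rp * I)) *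
        ((cfgT M y (m0 + a) (2 ^ (k0 - 1)) I R c).W / 2 ^ M) * (3 / 8) ≤
        c0 / 2 ^ b * (2 ^ I / ((cfgT M y (m0 + a) (2 ^ (k0 - 1)) I R c).Rp * I)) *
        ((cfgT M y (m0 + a) (2 ^ (k0 - 1)) I R c).W / 2 ^ M) / 2 := by
      have e2 : c0 / (y : ℝ) ^ (4 * M - 3) ≤ c0 / 2 ^ b :=
        div_le_div_of_nonneg_left hc0.le (by positivity) hbR
      have e3 : 0 ≤ (2 : ℝ) ^ I / ((cfgT M y (m0 + a) (2 ^ (k0 - 1)) I R c).Rp * I) * ((cfgT M y (m0 + a) (2 ^ (k0 - 1)) I R c).W / 2 ^ M) := by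
        positivity
      have e4 := mul_le_mul_of_nonneg_right e2 e3
      have e5 : 0 ≤ c0 / (y : ℝ) ^ (4 * M - 3) *
          ((2 : ℝ) ^ I / ((cfgT M y (m0 + a) (2 ^ (k0 - 1)) I R c).Rp * I) * ((cfgT M y (m0 + a) (2 ^ (k0 - 1)) I R c).W / 2 ^ M)) := by positivity
      nlinarith
    have e6 : c0 / 2 ^ b * (2 ^ I / ((cfgT M y (m0 + a) (2 ^ (k0 - 1)) I R c).Rp * I)) *
        ((cfgT M y (m0 + a) (2 ^ (k0 - 1)) I R c).W / 2 ^ M) / 2 ≤
        (((cfgT M y (m0 + a) (2 ^ (k0 - 1)) I R c).Tup.filter (fun t => (cfgT M y (m0 + a) (2 ^ (k0 - 1)) I R c).N t % (8 * 2 ^ b) =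
        (8 * ρ + m) % (8 * 2 ^ b))).card : ℝ) / 2 := by
      apply div_le_div_of_nonneg_right _ (by norm_num)
      exact hTlow
    refine le_trans (le_trans (le_of_eq ?_) hlost) (e1.trans e6)
    congr
  have hA := stepQ L tt htt tup (cfgT M y (m0 + a) (2 ^ (k0 - 1)) I R c) hLR hok y
    (by
      show tt ≤ 2 ^ I
      have : I < 2 ^ I := Nat.lt_two_pow_self
      omega) b ρ m hm hmod
    (fun s hs hs2 hs3 => by
      rw [hmdef]
      have e1 : (cfgT M y (m0 + a) (2 ^ (k0 - 1)) I R c).R = R := rfl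
      have e2 : (cfgT M y (m0 + a) (2 ^ (k0 - 1)) I R c).c = c := rfl
      rw [e1] at hs2 hs3
      rw [e2] at hs3
      apply hcf m' hm'odd hm'3 s hs
      · rw [hs2]
        omega
      · rw [hs3]
        exact hpar)
    (C * 2 ^ (cfgT M y (m0 + a) (2 ^ (k0 - 1)) I R c).R.card * ((cfgT M y (m0 + a) (2 ^ (k0 - 1)) I R c).U / (cfgT M y (m0 + a) (2 ^ (k0 - 1)) I R c).Rp) *
      (∏ j, (((cfgT M y (m0 + a) (2 ^ (k0 - 1)) I R c).S j + 1 / (I : ℝ) ^ 2 +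
        (cfgT M y (m0 + a) (2 ^ (k0 - 1)) I R c).R.card / 2 ^ ((cfgT M y (m0 + a) (2 ^ (k0 - 1)) I R c).κ j)) ^ (cfgT M y (m0 + a) (2 ^ (k0 - 1)) I R c).k j /
        (((cfgT M y (m0 + a) (2 ^ (k0 - 1)) I R c).k j).factorial : ℝ))) * (y * (Nat.log 2 I + 1) / I))
    (by
      have hSnn : ∀ j, 0 ≤ (cfgT M y (m0 + a) (2 ^ (k0 - 1)) I R c).S j := fun j => by
        unfold Cfg.S
        exact Finset.sum_nonneg (fun q _ => by positivity)
      have hU : 0 ≤ (cfgT M y (m0 + a) (2 ^ (k0 - 1)) I R c).U := by unfold Cfg.U; positivity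
      have hp : 0 ≤ (∏ j, (((cfgT M y (m0 + a) (2 ^ (k0 - 1)) I R c).S j + 1 / (I : ℝ) ^ 2 +
        (cfgT M y (m0 + a) (2 ^ (k0 - 1)) I R c).R.card / 2 ^ ((cfgT M y (m0 + a) (2 ^ (k0 - 1)) I R c).κ j)) ^ (cfgT M y (m0 + a) (2 ^ (k0 - 1)) I R c).k j /
        (((cfgT M y (m0 + a) (2 ^ (k0 - 1)) I R c).k j).factorial : ℝ))) := by
        refine Finset.prod_nonneg (fun j _ => ?_)
        have := hSnn j
        positivity
      positivity)
    (fun δ s h1 h2 h3 h4 => by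
      have h0 := h3' M (cfgT M y (m0 + a) (2 ^ (k0 - 1)) I R c) hok (show I2 ≤ I by omega) y (by omega)
        hIpow hIbig hκ hksum δ s h1 h2 h3 h4
      refine le_trans (le_of_eq ?_) h0
      congr)
    (by
      refine le_trans (le_of_eq ?_) hlost'
      congr)
  have hSnn' : ∀ j, 0 ≤ (cfgT M y (m0 + a) (2 ^ (k0 - 1)) I R c).S j := fun j => by
    unfold Cfg.S
    exact Finset.sum_nonneg (fun q _ => by positivity)
  have hUnn' : 0 ≤ (cfgT M y (m0 + a) (2 ^ (k0 - 1)) I R c).U := by unfold Cfg.U; positivity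
  have hpnn' : 0 ≤ (∏ j, (((cfgT M y (m0 + a) (2 ^ (k0 - 1)) I R c).S j + 1 / (I : ℝ) ^ 2 +
      (cfgT M y (m0 + a) (2 ^ (k0 - 1)) I R c).R.card /
        2 ^ ((cfgT M y (m0 + a) (2 ^ (k0 - 1)) I R c).κ j)) ^
        (cfgT M y (m0 + a) (2 ^ (k0 - 1)) I R c).k j /
      (((cfgT M y (m0 + a) (2 ^ (k0 - 1)) I R c).k j).factorial : ℝ))) := by
    refine Finset.prod_nonneg (fun j _ => ?_)
    have := hSnn' j
    positivity
  have hC2 : C * 2 ^ (cfgT M y (m0 + a) (2 ^ (k0 - 1)) I R c).R.card ≤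
      (C * 2 ^ K) * 1 := by
    rw [mul_one]
    apply mul_le_mul_of_nonneg_left _ hC.le
    exact pow_le_pow_right₀ (by norm_num) hRC.card
  have hB := stepB (c0 / 2 ^ b) (C * 2 ^ K) I ((cfgT M y (m0 + a) (2 ^ (k0 - 1)) I R c).Rp) ((cfgT M y (m0 + a) (2 ^ (k0 - 1)) I R c).U) (Real.exp M)
    ((cfgT M y (m0 + a) (2 ^ (k0 - 1)) I R c).W) y (Nat.log 2 I + 1) 1
    (((cfgT M y (m0 + a) (2 ^ (k0 - 1)) I R c).Tup.filter (fun t => (cfgT M y (m0 + a) (2 ^ (k0 - 1)) I R c).N t % (8 * 2 ^ b) =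
        (8 * ρ + m) % (8 * 2 ^ b))).card) (oddQ L tt b ρ (2 ^ I))
    (∏ j, (((cfgT M y (m0 + a) (2 ^ (k0 - 1)) I R c).S j + 1 / (I : ℝ) ^ 2 +
        (cfgT M y (m0 + a) (2 ^ (k0 - 1)) I R c).R.card / 2 ^ ((cfgT M y (m0 + a) (2 ^ (k0 - 1)) I R c).κ j)) ^ (cfgT M y (m0 + a) (2 ^ (k0 - 1)) I R c).k j /
        (((cfgT M y (m0 + a) (2 ^ (k0 - 1)) I R c).k j).factorial : ℝ))) (2 ^ M) (Real.sqrt 3) (Real.sqrt (2 ^ I))
    (2 ^ (rr M y)) (by positivity) (by positivity) hIR hRp (Real.exp_pos _) hWpos hyR (by positivity)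
    (by norm_num)
    (by norm_num) (by positivity) hprod (by positivity) (by positivity) hs3 (by positivity)
    (by
      unfold Cfg.U
      rw [Real.sqrt_mul (by norm_num)]
      rfl)
    (by
      rw [Real.sq_sqrt (by positivity)]
      exact hTlow)
    (by
      refine le_trans (le_trans (le_of_eq ?_) hA) ?_
      · congr
      · apply mul_le_mul_of_nonneg_left _ (by positivity)
        gcongr)
  refine le_trans ?_ hB
  have h8 := h8' y (by omega) I hI2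
  push_cast at h8
  have hr2' : (y:ℝ) ^ (2 * M - 1) ≤ 2 ^ (rr M y) := by exact_mod_cast hr2.le
  have hzp : (y : ℝ) ^ (2 * M - 3 : ℤ) = (y:ℝ) ^ (2 * M - 1) / (y:ℝ) ^ 2 := by
    have e1 : (2 * M - 3 : ℤ) = ((2 * M - 1 : ℕ) : ℤ) - ((2 : ℕ) : ℤ) := by
      have : 1 ≤ 2 * M := by omega
      push_cast [this]
      ring
    rw [e1, zpow_sub₀ hyR.ne', zpow_natCast, zpow_natCast]
  rw [hzp]
  have hsI : 0 < Real.sqrt (2 ^ I) := Real.sqrt_pos.2 (by positivity)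
  have hLpos : (0:ℝ) < (Nat.log 2 I : ℝ) + 1 := by positivity
  have hexp : 0 < Real.exp M := Real.exp_pos _
  have h2b : (0 : ℝ) < 2 ^ b := by positivity
  rw [div_mul_eq_mul_div, le_div_iff₀ (by positivity)] at h8
  have hsplit : c0 / 2 ^ b * Real.sqrt (2 ^ I) * 2 ^ (rr M y) /
      (8 * 2 ^ M * (C * 2 ^ K) * Real.exp M * Real.sqrt 3 * y * ((Nat.log 2 I : ℝ) + 1)) =
      (c0 * Real.sqrt (2 ^ I) * 2 ^ (rr M y) /
      (8 * 2 ^ M * (C * 2 ^ K) * Real.exp M * Real.sqrt 3 * y * ((Nat.log 2 I : ℝ) + 1))) / 2 ^ b := by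
    field_simp
  rw [hsplit]
  apply div_le_div_of_nonneg_right _ h2b.le
  rw [← mul_div_assoc, div_le_div_iff₀ (by positivity) (by positivity)]
  calc Real.sqrt (2 ^ I) * (y:ℝ) ^ (2 * M - 1) *
        (8 * 2 ^ M * (C * 2 ^ K) * Real.exp M * Real.sqrt 3 * y * ((Nat.log 2 I : ℝ) + 1))
      = Real.sqrt (2 ^ I) * (y:ℝ) ^ (2 * M - 1) * y *
        (((Nat.log 2 I : ℝ) + 1) * (8 * 2 ^ M * (C * 2 ^ K) * Real.exp M * Real.sqrt 3)) := by ring
    _ ≤ Real.sqrt (2 ^ I) * 2 ^ (rr M y) * y * (c0 * y) := by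
        apply mul_le_mul _ h8 (by positivity) (by positivity)
        apply mul_le_mul_of_nonneg_right _ hyR.le
        exact mul_le_mul_of_nonneg_left hr2' hsI.le
    _ = c0 * Real.sqrt (2 ^ I) * 2 ^ (rr M y) * (y:ℝ) ^ 2 := by ring

end Pool.Agent.H413R3.OddL
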