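import Pool.Agent.H413R3.OddL.Rch

set_option autoImplicit false

/-! The choice of the fixed primes, with given primes among them (adapted from
`Pool.Agent.H307R2.OP.RCH`) -/

namespace Pool.Agent.H413R3.OddL

open Pool.Agent.H413R3.OddT

open Finset Pool.Agent.H307R2.OP

open Classical in
/-- choice of the killing primes and of the further primes -/
theorem rChoiceTQ (h1 : StrongStmt) (h2 : KillPrime) (K0 a : ℕ) (ha2 : 2 ≤ a) :
    ∀ M : ℕ, 1 ≤ M → ∃ y0 : ℕ, ∀ y : ℕ, y0 ≤ y → ∀ I : ℕ,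
    y ^ (2 * M + 4) ≤ I → I ≤ 2 * y ^ (2 * M + 4) → ∀ L : Finset ℕ, L.card ≤ K0 →
    (∀ l ∈ L, l.Prime ∧ l % 8 = 5) → ∏ l ∈ L, l ≤ 2 ^ (I / 32) → ∃ (R : Finset ℕ) (c : ℕ),
      (c = 3 ∨ c = 5) ∧ L ⊆ R ∧ RCT M y I (K0 + (a + 2)) R ∧
      (R.filter (fun q => q % 8 = 3)).card + (if c = 3 then 1 else 0) = a := by
  obtain ⟨C1, hC1⟩ := h1
  obtain ⟨C2, hC2⟩ := h2
  intro M hM
  -- the stock of primes `≡ 3 (mod 8)`
  obtain ⟨T, hTsub, hTcard⟩ : ∃ T : Finset ℕ, (↑T : Set ℕ) ⊆ {p : ℕ | p.Prime ∧ 5 ≤ p ∧ p % 8 = 3} ∧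
      T.card = a + 2 := by
    have hinf : {p : ℕ | p.Prime ∧ 5 ≤ p ∧ p % 8 = 3}.Infinite := by
      have h3 : IsUnit ((3 : ℕ) : ZMod 8) := by
        rw [ZMod.isUnit_iff_coprime]
        decide
      have h4 := Nat.infinite_setOf_prime_and_eq_mod h3
      refine (h4.diff (Set.finite_Iio 5)).mono ?_
      intro p hp
      obtain ⟨⟨hp1, hp2⟩, hp3⟩ := hp
      simp only [Set.mem_Iio, not_lt] at hp3
      refine ⟨hp1, hp3, ?_⟩
      rw [ZMod.natCast_eq_natCast_iff] at hp2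
      exact hp2
    exact hinf.exists_subset_card_eq _
  set P0 : ℕ := ∏ q ∈ T, q with hP0
  refine ⟨1 + C1 + 8 * C1 + 1728 * C2 + 96 * P0, ?_⟩
  intro y hy I hI1 hI2 L hLc hL hLI
  have hy1 : 1 ≤ y := by omega
  set Δ : ℕ := 2 ^ (8 * y ^ (2 * M - 1)) with hΔ
  set i : ℕ := kap M y 0 with hi
  have hi' : i = y ^ (2 * M + 2) := by
    rw [hi]; unfold kap; simp
  have hCi : C1 ≤ i := by
    rw [hi']
    calc C1 ≤ y := by omega
      _ = y ^ 1 := (pow_one y).symm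
      _ ≤ y ^ (2 * M + 2) := Nat.pow_le_pow_right hy1 (by omega)
  have hΔC : Δ ^ C1 ≤ 2 ^ i := by
    rw [hΔ, ← pow_mul]
    apply Nat.pow_le_pow_right (by norm_num)
    rw [hi']
    have := rch_pow C1 8 (2 * M - 1) (2 * M + 2) y (by omega) hy1 (by omega)
    calc 8 * y ^ (2 * M - 1) * C1 = 8 * C1 * y ^ (2 * M - 1) := by ring
      _ ≤ _ := this
  -- the strong kernels
  set SB : Finset ℕ := (range (Δ + 1)).filter (fun δ => AdmL δ ∧ StrongAt i δ) with hSB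
  have hSBcard : SB.card ≤ 2 := by
    by_contra hcon
    push Not at hcon
    obtain ⟨a, ha, b, hb, c, hc, hab, hac, hbc⟩ := Finset.two_lt_card.mp hcon
    rw [hSB, Finset.mem_filter, Finset.mem_range] at ha hb hc
    exact hC1 i Δ a b c hCi hΔC ha.2.1 hb.2.1 hc.2.1 (by omega) (by omega) (by omega) hab hac hbc
      ha.2.2 hb.2.2 hc.2.2
  have hch : ∀ δ : ℕ, ∃ q : ℕ, AdmL δ → (q.Prime ∧ 5 ≤ q ∧ (q % 8 = 3 ∨ q % 8 = 5) ∧
      J q δ = -1 ∧ q ≤ C2 * δ ^ C2) := by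
    intro δ
    by_cases h : AdmL δ
    · obtain ⟨q, hq⟩ := hC2 δ h
      exact ⟨q, fun _ => hq⟩
    · exact ⟨0, fun h' => absurd h' h⟩
  choose qf hqf using hch
  set R : Finset ℕ := SB.image qf with hR
  have hRcard : R.card ≤ 2 := Finset.card_image_le.trans hSBcard
  have hRmem : ∀ q ∈ R, ∃ δ : ℕ, AdmL δ ∧ δ ≤ Δ ∧ qf δ = q := by
    intro q hq
    rw [hR, Finset.mem_image] at hq
    obtain ⟨δ, hδ, hq⟩ := hq
    rw [hSB, Finset.mem_filter, Finset.mem_range] at hδ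
    exact ⟨δ, hδ.2.1, by omega, hq⟩
  have hRpr : ∀ q ∈ R, q.Prime ∧ 5 ≤ q ∧ (q % 8 = 3 ∨ q % 8 = 5) := by
    intro q hq
    obtain ⟨δ, hδ, _, rfl⟩ := hRmem q hq
    obtain ⟨h3, h4, h5, _⟩ := hqf δ hδ
    exact ⟨h3, h4, h5⟩
  have hRle : ∀ q ∈ R, q ≤ 2 ^ (9 * C2 * y ^ (2 * M - 1)) := by
    intro q hq
    obtain ⟨δ, hδ, hδle, rfl⟩ := hRmem q hq
    obtain ⟨_, _, _, _, h5⟩ := hqf δ hδ
    have hyp : 1 ≤ y ^ (2 * M - 1) := Nat.one_le_pow _ _ hy1
    calc qf δ ≤ C2 * δ ^ C2 := h5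
      _ ≤ 2 ^ C2 * Δ ^ C2 :=
        Nat.mul_le_mul (Nat.lt_two_pow_self).le (Nat.pow_le_pow_left hδle C2)
      _ = 2 ^ (C2 + 8 * y ^ (2 * M - 1) * C2) := by rw [hΔ, ← pow_mul, ← pow_add]
      _ ≤ 2 ^ (9 * C2 * y ^ (2 * M - 1)) := by
        apply Nat.pow_le_pow_right (by norm_num)
        nlinarith [Nat.mul_le_mul_left C2 hyp]
  have hRprod : ∏ q ∈ R, q ≤ 2 ^ (I / 96) := by
    have h3 : ∏ q ∈ R, q ≤ (2 ^ (9 * C2 * y ^ (2 * M - 1))) ^ R.card :=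
      Finset.prod_le_pow_card R (fun q => q) _ hRle
    refine h3.trans ?_
    calc (2 ^ (9 * C2 * y ^ (2 * M - 1))) ^ R.card ≤ (2 ^ (9 * C2 * y ^ (2 * M - 1))) ^ 2 :=
          Nat.pow_le_pow_right (by positivity) hRcard
      _ = 2 ^ (9 * C2 * y ^ (2 * M - 1) * 2) := by rw [← pow_mul]
      _ ≤ 2 ^ (I / 96) := by
        apply Nat.pow_le_pow_right (by norm_num)
        rw [Nat.le_div_iff_mul_le (by norm_num)]
        have := rch_pow C2 1728 (2 * M - 1) (2 * M + 4) y (by omega) hy1 (by omega)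
        calc 9 * C2 * y ^ (2 * M - 1) * 2 * 96 = 1728 * C2 * y ^ (2 * M - 1) := by ring
          _ ≤ y ^ (2 * M + 4) := this
          _ ≤ I := hI1
  have hkills : ∀ δ : ℕ, AdmL δ → δ ≤ 2 ^ (8 * y ^ (2 * M - 1)) → StrongAt (kap M y 0) δ →
      ∃ q ∈ R, J q δ = -1 := by
    intro δ hδ hle hst
    refine ⟨qf δ, ?_, ?_⟩
    · rw [hR, Finset.mem_image]
      refine ⟨δ, ?_, rfl⟩
      rw [hSB, Finset.mem_filter, Finset.mem_range]
      exact ⟨Nat.lt_succ_of_le hle, hδ, hst⟩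
    · exact (hqf δ hδ).2.2.2.1
  have hfc : (R.filter (fun q => q % 8 = 3)).card ≤ 2 :=
    (Finset.card_filter_le _ _).trans hRcard
  set b3 := (R.filter (fun q => q % 8 = 3)).card with hb3
  -- the further primes
  have hTR : a - b3 ≤ (T \ R).card := by
    have h3 := Finset.le_card_sdiff R T
    omega
  obtain ⟨V, hV1, hV2⟩ := Finset.exists_subset_card_eq hTR
  have hVT : ∀ q ∈ V, q ∈ T ∧ q ∉ R := fun q hq => Finset.mem_sdiff.1 (hV1 hq)
  have hdisj : Disjoint R V := by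
    rw [Finset.disjoint_left]
    intro q hq hq'
    exact (hVT q hq').2 hq
  have hI32 : P0 ≤ 2 ^ (I / 96) := by
    have h3 : 96 * P0 ≤ I := by
      calc 96 * P0 ≤ y := by omega
        _ = y ^ 1 := (pow_one y).symm
        _ ≤ y ^ (2 * M + 4) := Nat.pow_le_pow_right hy1 (by omega)
        _ ≤ I := hI1
    calc P0 ≤ I / 96 := by omega
      _ ≤ 2 ^ (I / 96) := Nat.lt_two_pow_self.le
  have hsplit : ∏ q ∈ (R ∪ V) ∪ L, q = (∏ q ∈ R ∪ V, q) * ∏ q ∈ L \ (R ∪ V), q := by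
    rw [← Finset.union_sdiff_self_eq_union, Finset.prod_union Finset.disjoint_sdiff]
  have hLd : ∏ q ∈ L \ (R ∪ V), q ≤ 2 ^ (I / 32) := by
    refine le_trans ?_ hLI
    apply Nat.le_of_dvd
    · exact Finset.prod_pos fun q hq => (hL q hq).1.pos
    · exact Finset.prod_dvd_prod_of_subset _ _ _ Finset.sdiff_subset
  refine ⟨(R ∪ V) ∪ L, 5, Or.inr rfl, Finset.subset_union_right, ⟨?_, ?_, ?_, ?_⟩, ?_⟩
  · have h3 := Finset.card_union_le (R ∪ V) L
    rw [Finset.card_union_of_disjoint hdisj, hV2] at h3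
    omega
  · intro q hq
    rcases Finset.mem_union.1 hq with hq | h
    · rcases Finset.mem_union.1 hq with h | h
      · exact hRpr q h
      · obtain ⟨h3, h4, h5⟩ := hTsub (Finset.mem_coe.2 (hVT q h).1)
        exact ⟨h3, h4, Or.inl h5⟩
    · obtain ⟨h3, h4⟩ := hL q h
      exact ⟨h3, by omega, Or.inr h4⟩
  · rw [hsplit, Finset.prod_union hdisj]
    have h3 : ∏ q ∈ V, q ≤ P0 := by
      apply Nat.le_of_dvd
      · exact Finset.prod_pos fun q hq => (hTsub (Finset.mem_coe.2 hq)).1.pos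
      · exact Finset.prod_dvd_prod_of_subset _ _ _ fun q hq => (hVT q hq).1
    calc (∏ q ∈ R, q) * (∏ q ∈ V, q) * ∏ q ∈ L \ (R ∪ V), q
        ≤ 2 ^ (I / 96) * 2 ^ (I / 96) * 2 ^ (I / 32) :=
          Nat.mul_le_mul (Nat.mul_le_mul hRprod (h3.trans hI32)) hLd
      _ = 2 ^ (I / 96 + I / 96 + I / 32) := by rw [pow_add, pow_add]
      _ ≤ 2 ^ (I / 16) := Nat.pow_le_pow_right (by norm_num) (by omega)
  · intro δ hδ hle hst
    obtain ⟨q, hq, hq2⟩ := hkills δ hδ hle hst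
    exact ⟨q, Finset.mem_union_left _ (Finset.mem_union_left _ hq), hq2⟩
  · have hfL : ((R ∪ V) ∪ L).filter (fun q => q % 8 = 3) =
        (R ∪ V).filter (fun q => q % 8 = 3) := by
      ext q
      simp only [Finset.mem_filter, Finset.mem_union]
      constructor
      · rintro ⟨h | h, h'⟩
        · exact ⟨h, h'⟩
        · have := (hL q h).2
          omega
      · rintro ⟨h, h'⟩
        exact ⟨Or.inl h, h'⟩
    rw [hfL, Finset.filter_union, Finset.card_union_of_disjoint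
      (Finset.disjoint_filter_filter hdisj), ← hb3]
    have h3 : V.filter (fun q => q % 8 = 3) = V := by
      rw [Finset.filter_eq_self]
      intro q hq
      exact (hTsub (Finset.mem_coe.2 (hVT q hq).1)).2.2
    rw [h3, hV2]
    norm_num
    omega

end Pool.Agent.H413R3.OddL
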