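import Pool.Agent.U448.OddQ.MainM
import Pool.Agent.U448.OddQ.MainL
import Pool.Agent.U448.OddQ.RchM
import Pool.Agent.U448.OddQ.RchL

set_option autoImplicit false

/-!
# Odd values of `p_t`, `t ≡ 1 (mod 6)`, on the `n` with `t - 24 n` a square modulo given primes
-/

namespace Pool.Agent.U448.OddQ

open Finset
open Pool.Agent.H413R3.OddT
open Pool.Agent.H307R2.OP (sp)
open Pool.Agent.H307R2.OP.OC (sp_pow sp_zero)
open Pool.Agent.H413R3.Part (mp)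

/-- the conclusion -/
def Concl (K t : ℕ) : Prop :=
    ∀ ε : ℝ, 0 < ε → ∃ x0 : ℝ, ∀ x : ℕ, x0 ≤ x → ∀ L : Finset ℕ, AL K L (Nat.log 2 x) →
    ∀ b ρ : ℕ, (2 : ℝ) ^ b ≤ Real.log x ^ (2 - ε) →
    Real.sqrt x * Real.log x ^ (1 - ε) / 2 ^ b ≤ (oddQ L t b ρ x : ℝ)

theorem finalM (K t : ℕ) (ht : t % 12 = 7)
    (hbit : t % 24 = 7 ∨
      ∃ r i : ℕ, 1 ≤ i ∧ t < 4 ^ r ∧ Nat.testBit ((4 ^ r - t) / 3) (2 * i + 1) = true) :
    Concl K t := by
  obtain ⟨k, a, m0, hk1, hm0, ha0, ha, hexp⟩ := Pool.Agent.U448.OddM.exponentsM t ht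
  by_cases ha1 : a = 1
  · subst ha1
    have hb7 : t % 24 = 7 := by
      rcases hbit with h | h
      · exact h
      · exact absurd rfl (ha h)
    refine from_yQ (AL K) (fun L => oddQ L t) (oddQ_mono t)
      (Pool.Agent.U448.OddM.mainYQ (AL K) t ht k 1 m0 (K + 2) ha0
      (fun w => w = 1 ∨ w = 3) (by rintro w (h | h) <;> omega) ?_ hexp ?_)
    · intro M hM
      obtain ⟨y0, hy0⟩ := Pool.Agent.U448.OddM.rChoice1Q Pool.Agent.U448.OddM.strong_main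
        Pool.Agent.U448.OddM.killPrime K M hM
      exact ⟨y0, fun y hy I hI1 hI2 L hAL => hy0 y hy I hI1 hI2 L hAL.1 hAL.2.1 hAL.2.2⟩
    · intro m' hodd hm3 s hs hcard h
      have hev : m' % 2 = 0 := by omega
      rcases h with h | h
      · exact ocT 1 m' s hs hcard h
      · exact Pool.Agent.U448.OddM.ocT3 m' hev (by omega) s hs hcard h
  · refine from_yQ (AL K) (fun L => oddQ L t) (oddQ_mono t)
      (Pool.Agent.U448.OddM.mainYQ (AL K) t ht k a m0 (K + (a + 2)) ha0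
      (fun w => w = a) (by rintro w h; omega) ?_ hexp ?_)
    · intro M hM
      obtain ⟨y0, hy0⟩ := Pool.Agent.U448.OddM.rChoiceTQ Pool.Agent.U448.OddM.strong_main
        Pool.Agent.U448.OddM.killPrime K a (by omega) M hM
      exact ⟨y0, fun y hy I hI1 hI2 L hAL => hy0 y hy I hI1 hI2 L hAL.1 hAL.2.1 hAL.2.2⟩
    · intro m' hodd hm3 s hs hcard h
      exact ocT a m' s hs hcard h

theorem stepL (K t k a m0 : ℕ) (ht : t % 12 = 1) (ha0 : a % 2 = 0) (ha : a ≠ 0)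
    (hexp : ∀ r, k ≤ r → 3 * (2 * sp a + 4 * sp (2 ^ (r - 1) - 2 ^ (k - 1) + m0) + 1) + t = 4 ^ r) :
    Concl K t := by
  refine from_yQ (AL K) (fun L => oddQ L t) (oddQ_mono t)
    (Pool.Agent.H413R3.OddL.mainYQ (AL K) t ht k a m0 (K + (a + 2)) ha0
    (fun w => w = a) (by rintro w h; omega) ?_ hexp ?_)
  · intro M hM
    obtain ⟨y0, hy0⟩ := Pool.Agent.H413R3.OddL.rChoiceTQ Pool.Agent.H413R3.OddL.strong_main
      Pool.Agent.H413R3.OddL.killPrime K a (by omega) M hM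
    exact ⟨y0, fun y hy I hI1 hI2 L hAL => hy0 y hy I hI1 hI2 L hAL.1 hAL.2.1 hAL.2.2⟩
  · intro m' hodd hm3 s hs hcard h
    exact ocT a m' s hs hcard h

theorem finalL (K t : ℕ) (ht : t % 12 = 1)
    (hbit : t % 24 = 1 ∨
      ∃ r i : ℕ, t < 4 ^ r ∧ Nat.testBit ((4 ^ r - t) / 3) (2 * i + 1) = true) :
    Concl K t := by
  rcases hbit with hbit | hbit
  · obtain ⟨k, a, m0, hk1, hm0, ha0, hexp⟩ := exponents t hbit
    by_cases ha : a = 0
    · subst ha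
      refine from_yQ (AL K) (fun L => oddQ L t) (oddQ_mono t) (mainYQ (AL K) t hbit k 0 m0
        (K + 2) rfl (fun w => w = 0 ∨ w = 2) (by rintro w (h | h) <;> omega) ?_ hexp ?_)
      · intro M hM
        obtain ⟨y0, hy0⟩ := rChoiceQ Pool.Agent.H307R2.OP.strong_main
          Pool.Agent.H307R2.OP.killPrime K M hM
        exact ⟨y0, fun y hy I hI1 hI2 L hAL => hy0 y hy I hI1 hI2 L hAL.1 hAL.2.1 hAL.2.2⟩
      · intro m' hodd hm3 s hs hcard h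
        rcases h with h | h
        · exact ocT 0 m' s hs hcard h
        · have h1 := ocT2 m' hodd hm3 s hs (by rw [hcard, zero_add]) h
          have e : 2 * sp 0 + 4 * sp m' + 1 = 4 * sp m' + 1 := by
            rw [sp_zero]; ring
          rw [e]
          exact h1
    · exact stepL K t k a m0 ht ha0 ha hexp
  · obtain ⟨k, a, m0, hk1, hm0, ha0, ha, hexp⟩ := Pool.Agent.H413R3.OddL.exponentsL t ht
    exact stepL K t k a m0 ht ha0 (ha hbit) hexp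

theorem oddQ_le' (L : Finset ℕ) (t b ρ x : ℕ) : oddQ L t b ρ x ≤
    {n : ℕ | n ≤ x ∧ n % 2 ^ b = ρ % 2 ^ b ∧
      (∀ l ∈ L, IsSquare ((t : ZMod l) - 24 * (n : ZMod l))) ∧ Odd (mp t n)}.ncard := by
  classical
  unfold oddQ
  rw [← Set.ncard_coe_finset]
  apply Set.ncard_le_ncard
  · intro n hn
    simp only [Finset.coe_filter, Set.mem_ofPred_eq, Finset.mem_range] at hn
    obtain ⟨h1, h2, h3, h4⟩ := hn
    refine ⟨by omega, h2, fun l hl => ?_, h4⟩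
    obtain ⟨v, hv⟩ := h3 l hl
    have h5 := (ZMod.natCast_eq_natCast_iff _ _ _).2 hv
    push_cast at h5
    exact ⟨v, by rw [← h5]; ring⟩
  · exact (Set.finite_Iic x).subset fun n hn => hn.1

theorem mainT (t : ℕ) (ht : t % 24 = 1 ∨ t % 24 = 7 ∨
      (t % 24 = 13 ∧ ∃ r i : ℕ, t < 4 ^ r ∧
        Nat.testBit ((4 ^ r - t) / 3) (2 * i + 1) = true) ∨
      (t % 24 = 19 ∧ ∃ r i : ℕ, 1 ≤ i ∧ t < 4 ^ r ∧
        Nat.testBit ((4 ^ r - t) / 3) (2 * i + 1) = true))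
    (K : ℕ) (ε : ℝ) (hε : 0 < ε) : ∃ x0 : ℝ, ∀ x : ℕ, x0 ≤ x → ∀ L : Finset ℕ,
    L.card ≤ K → (∀ l ∈ L, l.Prime ∧ l % 8 = 5) → (∏ l ∈ L, l) ^ 33 ≤ x → ∀ b ρ : ℕ,
    (2 : ℝ) ^ b ≤ Real.log x ^ (2 - ε) →
    Real.sqrt x * Real.log x ^ (1 - ε) / 2 ^ b ≤
      ({n : ℕ | n ≤ x ∧ n % 2 ^ b = ρ % 2 ^ b ∧
        (∀ l ∈ L, IsSquare ((t : ZMod l) - 24 * (n : ZMod l))) ∧ Odd (mp t n)}.ncard : ℝ) := by
  have hc : Concl K t := by
    rcases ht with h | h | ⟨h, hbit⟩ | ⟨h, hbit⟩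
    · exact finalL K t (by omega) (Or.inl h)
    · exact finalM K t (by omega) (Or.inl h)
    · exact finalL K t (by omega) (Or.inr hbit)
    · exact finalM K t (by omega) (Or.inr hbit)
  obtain ⟨x0, h⟩ := hc ε hε
  refine ⟨max x0 (2 ^ 1024), fun x hx L h1 h2 h3 b ρ hb => ?_⟩
  have hx1 : x0 ≤ x := (le_max_left _ _).trans hx
  have hx2 : 2 ^ 1024 ≤ x := by
    have := (le_max_right x0 ((2 : ℝ) ^ 1024)).trans hx
    exact_mod_cast this
  refine (h x hx1 L ⟨h1, h2, size _ _ hx2 h3⟩ b ρ hb).trans ?_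
  exact_mod_cast oddQ_le' L t b ρ x

end Pool.Agent.U448.OddQ
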